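import Pool.Agent.K7.H44.TGB

/-!
# Gaps in the spectrum of fixed-point proportions of level-transitive tree groups

The vertices at level `n` of the `d`-regular rooted tree are the words `Fin n → Fin d`;
`R14.FX.AutT d` is its automorphism group (compatible families of permutations of the levels),
`R14.FX.LevTrans G` says that `G` is transitive on every level, `R14.FX.lev G n` is the permutation
group induced on level `n` and `R14.FX.fixProp` the proportion of elements with a fixed point.
-/

set_option autoImplicit false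

namespace Pool.Agent.Results.MP_7bf935_al.SpectrumGap

open Filter Topology R14.FX

/-- The set of the fixed-point proportions of the level-transitive groups of automorphisms of the
`d`-regular rooted tree. -/
def fppSet (d : ℕ) : Set ℝ :=
  {a | ∃ G : Subgroup (∀ n : ℕ, Equiv.Perm (Fin n → Fin d)), G ≤ AutT d ∧ LevTrans G ∧
    Tendsto (fun n => fixProp (lev G n)) atTop (𝓝 a)}

/-- The width of the gap: `1 / 1296` for `d = 3`, and `1 / (d (d - 1) (d - 2))` otherwise. -/
noncomputable def gap (d : ℕ) : ℝ :=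
  if d = 3 then 1 / 1296 else 1 / ((d : ℝ) * ((d : ℝ) - 1) * ((d : ℝ) - 2))

/-- For every prime power `d ≥ 3` the fixed-point proportions of the level-transitive groups have a
maximum `α = (d² - d - 1) / (d² - 1)`, the value `(d - 2) / (d - 1) < α` occurs, but no value of
the open interval of length `gap d > 0` immediately below it occurs; in particular not every
element of `[0, α]` is a fixed-point proportion. For every `d ≥ 3`, a fixed-point proportion is
either at most `(d - 2) / (d - 1) - gap d`, or at least `(d - 2) / (d - 1)` with `d` a prime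
power. -/
theorem result :
    (∀ d : ℕ, 3 ≤ d → IsPrimePow d →
      ∃ α : ℝ, α = ((d : ℝ) ^ 2 - d - 1) / ((d : ℝ) ^ 2 - 1) ∧ IsGreatest (fppSet d) α ∧
        ((d : ℝ) - 2) / ((d : ℝ) - 1) ∈ fppSet d ∧ 0 < gap d ∧
        (∀ a : ℝ, ((d : ℝ) - 2) / ((d : ℝ) - 1) - gap d < a → a < ((d : ℝ) - 2) / ((d : ℝ) - 1) →
          0 ≤ a ∧ a ≤ α ∧ a ∉ fppSet d) ∧
        ¬ (Set.Icc 0 α ⊆ fppSet d)) ∧
    (∀ d : ℕ, 3 ≤ d → ∀ a ∈ fppSet d,
      a ≤ ((d : ℝ) - 2) / ((d : ℝ) - 1) - gap d ∨
        (((d : ℝ) - 2) / ((d : ℝ) - 1) ≤ a ∧ IsPrimePow d)) := by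
  have hgap : ∀ d, gap d = K7.H44.TG.gap d := fun d => rfl
  have hset : ∀ d, fppSet d = K7.H44.TG.fppSet d := fun d => rfl
  constructor
  · intro d hd hpp
    have hb := K7.H44.TG.beta_gt hd
    have hpos := K7.H44.TG.gap_pos hd
    have hlt := K7.H44.TG.gap_lt hd
    have key : ∀ a : ℝ, ((d : ℝ) - 2) / ((d : ℝ) - 1) - gap d < a →
        a < ((d : ℝ) - 2) / ((d : ℝ) - 1) →
        0 ≤ a ∧ a ≤ ((d : ℝ) ^ 2 - d - 1) / ((d : ℝ) ^ 2 - 1) ∧ a ∉ fppSet d := by
      intro a h1 h2
      rw [hgap] at h1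
      refine ⟨by linarith, by linarith, ?_⟩
      intro ha
      rcases K7.H44.TG.gap_thm hd a ha with h | h <;> linarith
    refine ⟨_, rfl, K7.H44.TG.greatest hpp, ?_, by rw [hgap]; exact hpos, key, ?_⟩
    · exact K7.H44.TG.attained d hpp hd
    · intro hsub
      obtain ⟨h1, h2, h3⟩ := key (((d : ℝ) - 2) / ((d : ℝ) - 1) - gap d / 2)
        (by rw [hgap]; linarith) (by rw [hgap]; linarith)
      exact h3 (hsub ⟨h1, h2⟩)
  · intro d hd a ha
    by_cases hpp : IsPrimePow d
    · rcases K7.H44.TG.gap_thm hd a ha with h | h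
      · exact Or.inl h
      · exact Or.inr ⟨h, hpp⟩
    · left
      have h1 := K7.H44.TG.bound_npp hd hpp a ha
      have h3 : d ≠ 3 := by
        rintro rfl
        exact hpp Nat.prime_three.isPrimePow
      have hdR : (3 : ℝ) ≤ d := by exact_mod_cast hd
      have hD1 : (d : ℝ) - 1 > 0 := by linarith
      have hD2 : (d : ℝ) - 2 > 0 := by linarith
      have hD0 : (d : ℝ) > 0 := by linarith
      have e : 1 - ((d : ℝ) - 1) / ((d : ℝ) * ((d : ℝ) - 2)) = ((d : ℝ) - 2) / ((d : ℝ) - 1) -
          1 / ((d : ℝ) * ((d : ℝ) - 1) * ((d : ℝ) - 2)) := by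
        field_simp
        ring
      unfold gap
      rw [if_neg h3, ← e]
      exact h1

end Pool.Agent.Results.MP_7bf935_al.SpectrumGap
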